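import Pool.Agent.Work.MP_3154ac_lc.E.Stmts

/-! # Composition with a nonconstant polynomial -/

set_option autoImplicit false

open Finset Polynomial

namespace Pool.Agent.Work.MP_3154ac_lc.E

namespace CMP

/-- The polynomial with coefficients `c`. -/
noncomputable def R {F : Type} [Field F] (e : ℕ) (c : ℕ → F) : F[X] :=
  ∑ s ∈ range e, Polynomial.C (c s) * X ^ s

lemma eval_R {F : Type} [Field F] (e : ℕ) (c : ℕ → F) (x : F) :
    (R e c).eval x = ∑ s ∈ range e, c s * x ^ s := by
  unfold R
  simp [Polynomial.eval_finset_sum]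

lemma coeff_R {F : Type} [Field F] (e : ℕ) (c : ℕ → F) (s : ℕ) (hs : s < e) :
    (R e c).coeff s = c s := by
  unfold R
  simp [Polynomial.finset_sum_coeff, Polynomial.coeff_X_pow, hs]

lemma natDegree_R {F : Type} [Field F] (e : ℕ) (c : ℕ → F) : (R e c).natDegree ≤ e := by
  unfold R
  refine Polynomial.natDegree_sum_le_of_forall_le _ _ fun s hs => ?_
  exact (Polynomial.natDegree_C_mul_X_pow_le _ _).trans (mem_range.1 hs).le

end CMP

open Classical in
theorem pr_CMP : S_CMP := by
  intro F _ _ K e P hP hne c hc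
  obtain ⟨s, hs, hcs⟩ := hc
  have hR0 : CMP.R e c ≠ 0 := by
    intro h
    apply hcs
    rw [← CMP.coeff_R e c s hs, h, Polynomial.coeff_zero]
  have hcomp : (CMP.R e c).comp P ≠ 0 := by
    intro h
    rcases Polynomial.comp_eq_zero_iff.1 h with h | h
    · exact hR0 h
    · obtain ⟨x, y, hxy⟩ := hne
      apply hxy
      rw [h.2, Polynomial.eval_C, Polynomial.eval_C]
  have hsub : (univ.filter fun a => ev e c (P.eval a) = 0) ⊆ ((CMP.R e c).comp P).roots.toFinset := by
    intro a ha
    rw [mem_filter] at ha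
    rw [Multiset.mem_toFinset, Polynomial.mem_roots hcomp, Polynomial.IsRoot.def,
      Polynomial.eval_comp, CMP.eval_R]
    exact ha.2
  have hdeg : P.natDegree ≤ K := by
    exact Polynomial.natDegree_le_of_degree_le hP.le
  calc _ ≤ ((CMP.R e c).comp P).roots.toFinset.card := Finset.card_le_card hsub
    _ ≤ Multiset.card ((CMP.R e c).comp P).roots := Multiset.toFinset_card_le _
    _ ≤ ((CMP.R e c).comp P).natDegree := Polynomial.card_roots' _
    _ = (CMP.R e c).natDegree * P.natDegree := Polynomial.natDegree_comp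
    _ ≤ e * K := Nat.mul_le_mul (CMP.natDegree_R e c) hdeg

end Pool.Agent.Work.MP_3154ac_lc.E
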