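import Pool.Agent.Work.MP_3154ac_lc.E.Stmts

/-!
# IDB: the extension vanishes at the pairs
-/

set_option autoImplicit false

namespace Pool.Agent.Work.MP_3154ac_lc.E

open N68a2faeb Finset Pool.Agent.PT Polynomial

namespace IDB

/-- the polynomial which vanishes at the codes of the pairs -/
noncomputable def Z (q k : ℕ) [Fact q.Prime] : (ZMod q)[X] :=
  ∏ s ∈ (range (k * k)).filter (fun s => s % k ≠ s / k), (X - C ((s : ℕ) : ZMod q))

theorem eval_Z (q k : ℕ) [Fact q.Prime] (x : ZMod q) : (Z q k).eval x = Zp k x := by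
  unfold Z Zp
  rw [eval_prod]
  simp

theorem natDegree_Z (q k : ℕ) [Fact q.Prime] : (Z q k).natDegree ≤ k ^ 2 := by
  unfold Z
  refine (natDegree_prod_le _ _).trans ?_
  calc ∑ s ∈ (range (k * k)).filter (fun s => s % k ≠ s / k),
        (X - C ((s : ℕ) : ZMod q)).natDegree
      ≤ ∑ s ∈ (range (k * k)).filter (fun s => s % k ≠ s / k), 1 := by
        refine Finset.sum_le_sum fun s _ => ?_
        exact natDegree_X_sub_C_le _
    _ = ((range (k * k)).filter (fun s => s % k ≠ s / k)).card := by simp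
    _ ≤ (range (k * k)).card := Finset.card_filter_le _ _
    _ = k ^ 2 := by rw [card_range, sq]

theorem Zp_zero (q k s : ℕ) [Fact q.Prime] (hs : s < k * k) (h : s % k ≠ s / k) :
    Zp k ((s : ℕ) : ZMod q) = 0 := by
  unfold Zp
  refine Finset.prod_eq_zero (i := s) ?_ (sub_self _)
  rw [mem_filter, mem_range]
  exact ⟨hs, h⟩

end IDB

theorem pr_IDB (hP : S_POL) (hF : S_FLD) : S_IDB := by
  intro q k h m e N _ adj I J QA QW hk he hkq hI hJ h1 h2 s hs hsk
  obtain ⟨P, hPd, hPe⟩ := hP q k h m N adj I J QA hk hI hJ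
  obtain ⟨W, hWd, hWe⟩ := (hF (ZMod q) e he).1 QW
  set A : Finset (ZMod q) := univ.filter fun x : ZMod q =>
    Phi h m N adj (fun c => ev k (fun s => QA s c) (I.eval x))
      (fun c => ev k (fun s => QA s c) (J.eval x)) =
    Zp k x * ev e (fun i => ev e (fun l => ev e (fun s => QW s i l) x) (x ^ (e * e)))
      (x ^ e) with hA
  have hD : P - IDB.Z q k * W = 0 := by
    refine Polynomial.eq_zero_of_natDegree_lt_card_of_eval_eq_zero' _ A (fun x hx => ?_) ?_
    · rw [hA, mem_filter] at hx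
      rw [eval_sub, eval_mul, hPe, hWe, IDB.eval_Z, hx.2, sub_self]
    · refine (natDegree_sub_le _ _).trans_lt (max_lt (hPd.trans_lt h1) ?_)
      refine (natDegree_mul_le.trans ?_).trans_lt h2
      have := IDB.natDegree_Z q k
      omega
  have h3 : P.eval ((s : ℕ) : ZMod q) = 0 := by
    rw [sub_eq_zero.1 hD, eval_mul, IDB.eval_Z, IDB.Zp_zero q k s hs hsk, zero_mul]
  rw [← hPe]
  exact h3

end Pool.Agent.Work.MP_3154ac_lc.E
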