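import Pool.Agent.Work.MP_3154ac_lc.Bd.B07
import Pool.Agent.Work.MP_3154ac_lc.Bd.B06
import Pool.Agent.Work.MP_3154ac_lc.E.CMP
import Pool.Agent.Work.MP_3154ac_lc.E.IDB
import Pool.Agent.Work.MP_3154ac_lc.Bd.B08
import Pool.Agent.Work.MP_3154ac_lc.I_SUB
import Pool.Agent.Work.MP_3154ac_lc.Bd.B05
import Pool.Agent.Work.MP_3154ac_lc.Bd.B01

/-!
# PIH for algorithms with subexponential dependence on the parameter: all items
-/

set_option autoImplicit false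

namespace Pool.Agent.Work.MP_3154ac_lc.E

theorem main : Main := by
  have hTRA := pr_TRA pr_UNI pr_LAG
  have hTRI := pr_TRI pr_UNI pr_TRC hTRA
  have hIDB := pr_IDB pr_POL pr_FLD
  have hIDC := pr_IDC pr_DIG
  have hSNA := pr_SNA hTRI pr_CMP pr_IDA hIDB hIDC pr_DIG pr_UNI
  have hCPB := pr_CPB pr_POL pr_FLD
  have hCNA := pr_CNA pr_CPA hCPB hIDC pr_DIG
  have hITP := pr_ITP pr_CST
  have hCHK := pr_CHK pr_CST
  have hTST := pr_TST pr_CST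
  have hEDG := pr_EDG hCHK hTST hITP
  have hSNE := pr_SNE hSNA hEDG pr_CTQ pr_VAL pr_CLQ
  have hCPE := pr_CPE hCNA hEDG (pr_COD pr_DIG) pr_CPC pr_CTQ pr_VAL pr_SOL pr_VLE pr_CLQ
  have hPTT := pr_PTT pr_POP
  have hPCH := pr_PCH pr_POP
  have hRPE := pr_RPE pr_POP hPTT hPCH
  have hDCE := pr_DCE (pr_XE pr_CPW) pr_QE pr_ARE pr_CAP pr_CPW hSNE hCPE pr_VLE
  exact asm hDCE pr_SRE pr_SUB pr_OUT pr_PRT hRPE pr_DPT pr_SPT pr_BRA pr_BRB pr_HYP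

end Pool.Agent.Work.MP_3154ac_lc.E
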