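import Pool.Agent.Work.MP_3154ac_lc.Defs2

/-!
# PIH for algorithms with subexponential dependence on the parameter: definitions
-/

set_option autoImplicit false

namespace Pool.Agent.Work.MP_3154ac_lc.E

open N68a2faeb

/-- The integer part of `k ^ (a / (a + 1))`: the largest `r ≤ k` with `r ^ (a + 1) ≤ k ^ a`. -/
def rt (a k : ℕ) : ℕ := Nat.findGreatest (fun r => r ^ (a + 1) ≤ k ^ a) k

/-- Some algorithm with running time `(2 ^ (k ^ δ) * |I|) ^ O(1)`, `δ = a / (a + 1)`, accepts all
MDkS instances `I` (with `k` parts) with `Y I` and rejects all with `N I`: its answer is computed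
in polynomial time from `I` and a string of length `2 ^ ⌊k ^ δ⌋`. -/
def GapTime (a : ℕ) (Y N : Inst → Prop) : Prop :=
  ∃ R : List Bool × Inst → Bool, IsPolyTime R ∧ ∀ I : Inst,
    (Y I → R (List.replicate (2 ^ rt a I.2.1) true, I) = true) ∧
    (N I → R (List.replicate (2 ^ rt a I.2.1) true, I) = false)

/-- Some algorithm with running time `(2 ^ (k ^ c) * |G|) ^ O(1)`, `c` constant, finds in every
graph `G` with a clique with `k` vertices such a clique: its output is computed in polynomial time
from `(G, k)` and a string of length `2 ^ (k ^ c)`. -/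
def CliqueTime : Prop :=
  ∃ (c : ℕ) (S : List Bool × (Code × ℕ) → List ℕ), IsPolyTime S ∧
    ∀ (G : Code) (k : ℕ), HasClique G k →
      IsCliqueList G k (S (List.replicate (2 ^ (k ^ c)) true, (G, k)))

/-- Hypothesis C: for every constant `C ≥ 1` no FPT algorithm finds in every graph with a clique
with `k` vertices a clique with at least `k / C` vertices. An FPT algorithm is a polynomial-time
function of the input and of a string `g k`, `g` a computable function of the parameter. -/
def HypC : Prop := ∀ C : ℝ, 1 ≤ C →
  ¬ ∃ (g : ℕ → List Bool) (S : List Bool × (Code × ℕ) → List ℕ),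
    Computable g ∧ IsPolyTime S ∧ ∀ (G : Code) (k : ℕ), HasClique G k →
      IsCliqueList G ⌈(k : ℝ) / C⌉₊ (S (g k, (G, k)))

/-- The main theorem. -/
def Main : Prop := (HypC → ¬ CliqueTime) ∧
  (¬ CliqueTime → ∀ a : ℕ, ¬ GapTime a Full (Small (1 / 288)))

end Pool.Agent.Work.MP_3154ac_lc.E
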