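import Pool.Agent.Work.MP_3154ac_lc.E.Defs
import Pool.Agent.Work.MP_3154ac_lc.Stmts3

/-!
# PIH for algorithms with subexponential dependence on the parameter: reduction and items

From a graph `G` and `k` we build an MDkS instance with `3 q` parts, `q` a prime. Parts are the
axis-parallel planes of `F^3`, `F = ZMod q`, in the directions `0, 1, 2`; the vertices of a part are
polynomials on the plane (three blocks), coded by numbers `j < M` in base `q`.
-/

set_option autoImplicit false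

namespace Pool.Agent.Work.MP_3154ac_lc.E

open N68a2faeb Finset Pool.Agent.PT Polynomial

/-! ### polynomials over a field `F`, given by functions of the index -/

section field

variable {F : Type} [Field F]

/-- value at `x` of the polynomial with coefficients `c 0, ..., c (e - 1)` -/
def ev (e : ℕ) (c : ℕ → F) (x : F) : F := ∑ i ∈ range e, c i * x ^ i

/-- the planes `p1 a` (position `ι a` of the first variable) and `p2 b` disagree -/
def In12 (e1 e2 e3 : ℕ) (ι : F → F) (p1 p2 : F → ℕ → ℕ → F) (a b : F) : Prop :=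
  ∃ l < e3, ev e2 (fun i => p1 a i l) b ≠ ev e1 (fun s => p2 b s l) (ι a)

/-- the planes `p1 a` (position `ι a` of the first variable) and `p3 c` disagree -/
def In13 (e1 e2 e3 : ℕ) (ι : F → F) (p1 p3 : F → ℕ → ℕ → F) (a c : F) : Prop :=
  ∃ i < e2, ev e3 (fun l => p1 a i l) c ≠ ev e1 (fun s => p3 c s i) (ι a)

/-- the planes `p2 b` and `p3 c` disagree -/
def In23 (e1 e2 e3 : ℕ) (p2 p3 : F → ℕ → ℕ → F) (b c : F) : Prop :=
  ∃ s < e1, ev e3 (fun l => p2 b s l) c ≠ ev e2 (fun i => p3 c s i) b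

/-- indicator polynomial of `η` on `{0, ..., h - 1}` (not normalised) -/
def Del (h η : ℕ) (z : F) : F := ∏ η' ∈ (range h).erase η, (z - (η' : F))

/-- indicator polynomial of the digits of `u` -/
def Ind (h m u : ℕ) (α : ℕ → F) : F := ∏ c ∈ range m, Del h (dig h c u) (α c)

/-- extension of the table of the non-adjacent pairs -/
def Phi (h m N : ℕ) (adj : ℕ → ℕ → Bool) (α β : ℕ → F) : F :=
  ∑ u ∈ range N, ∑ v ∈ range N, if adj u v = true then 0 else Ind h m u α * Ind h m v β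

/-- vanishes at `0, ..., k - 1` -/
def Zk (k : ℕ) (x : F) : F := ∏ s ∈ range k, (x - (s : F))

/-- vanishes at the codes `s = i + k j` of the pairs `i ≠ j` -/
def Zp (k : ℕ) (x : F) : F := ∏ s ∈ (range (k * k)).filter (fun s => s % k ≠ s / k), (x - (s : F))

/-- the test of a plane of direction `0` at the position `x` -/
def T2 (k h d e N : ℕ) (adj : ℕ → ℕ → Bool) (x : F) (α β ρ : ℕ → F) (ω : ℕ → ℕ → F) : Prop :=
  (∀ c < d * d, ∏ η ∈ range h, (α c - (η : F)) = Zk k x * ρ c) ∧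
  Phi h (d * d) N adj α β =
    Zp k x * ev e (fun i => ev e (fun l => ω i l) (x ^ (e * e))) (x ^ e)

end field

/-- UNI: a polynomial with many zeros is zero -/
def S_UNI : Prop := ∀ (F : Type) [Field F] (e : ℕ) (c : ℕ → F) (S : Finset F), e ≤ S.card →
  (∀ x ∈ S, ev e c x = 0) → ∀ i < e, c i = 0

/-- LAG: Lagrange basis -/
def S_LAG : Prop := ∀ (F : Type) [Field F] [DecidableEq F] (S : Finset F),
  ∃ L : F → ℕ → F, ∀ b ∈ S, ∀ x ∈ S, ev S.card (L b) x = if x = b then 1 else 0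

open Classical in
/-- TRC: few planes cover all inconsistencies -/
def S_TRC : Prop := ∀ (V : Type) [Fintype V] (B12 B13 B23 : V → V → Prop),
  (∀ a b, B12 a b → 8 * (univ.filter fun c => ¬ (B13 a c ∨ B23 b c)).card ≤ Fintype.card V) →
  (∀ a c, B13 a c → 8 * (univ.filter fun b => ¬ (B12 a b ∨ B23 b c)).card ≤ Fintype.card V) →
  (∀ b c, B23 b c → 8 * (univ.filter fun a => ¬ (B12 a b ∨ B13 a c)).card ≤ Fintype.card V) →
  64 * ((univ.filter fun p : V × V => B12 p.1 p.2).card +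
    (univ.filter fun p : V × V => B13 p.1 p.2).card +
    (univ.filter fun p : V × V => B23 p.1 p.2).card) ≤ Fintype.card V ^ 2 →
  ∃ X1 X2 X3 : Finset V, 14 * (X1.card + X2.card + X3.card) ≤ Fintype.card V ∧
    (∀ a b, a ∉ X1 → b ∉ X2 → ¬ B12 a b) ∧ (∀ a c, a ∉ X1 → c ∉ X3 → ¬ B13 a c) ∧
    (∀ b c, b ∉ X2 → c ∉ X3 → ¬ B23 b c)

/-- TRA: consistent planes come from one polynomial in three variables (uses UNI, LAG) -/
def S_TRA : Prop := ∀ (F : Type) [Field F] [Fintype F] [DecidableEq F] (e1 e2 e3 : ℕ)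
  (ι : F → F) (p1 p2 p3 : F → ℕ → ℕ → F) (X1 X2 X3 : Finset F),
  14 * (X1.card + X2.card + X3.card) ≤ Fintype.card F → 8 * e2 ≤ Fintype.card F →
  8 * e3 ≤ Fintype.card F →
  (∀ a b, a ∉ X1 → b ∉ X2 → ¬ In12 e1 e2 e3 ι p1 p2 a b) →
  (∀ b c, b ∉ X2 → c ∉ X3 → ¬ In23 e1 e2 e3 p2 p3 b c) →
  ∃ Q : ℕ → ℕ → ℕ → F,
    (∀ a, a ∉ X1 → ∀ i < e2, ∀ l < e3, p1 a i l = ev e1 (fun s => Q s i l) (ι a)) ∧
    (∀ b, b ∉ X2 → ∀ s < e1, ∀ l < e3, p2 b s l = ev e2 (fun i => Q s i l) b)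

open Classical in
/-- TRI: the plane test (uses UNI, TRC, TRA) -/
def S_TRI : Prop := ∀ (F : Type) [Field F] [Fintype F] (e1 e2 e3 : ℕ)
  (ι : F → F) (p1 p2 p3 : F → ℕ → ℕ → F),
  (∀ c : ℕ → F, (∃ s < e1, c s ≠ 0) →
    8 * (univ.filter fun a => ev e1 c (ι a) = 0).card ≤ Fintype.card F) →
  8 * e2 ≤ Fintype.card F → 8 * e3 ≤ Fintype.card F →
  64 * ((univ.filter fun p : F × F => In12 e1 e2 e3 ι p1 p2 p.1 p.2).card +
    (univ.filter fun p : F × F => In13 e1 e2 e3 ι p1 p3 p.1 p.2).card +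
    (univ.filter fun p : F × F => In23 e1 e2 e3 p2 p3 p.1 p.2).card) ≤ Fintype.card F ^ 2 →
  ∃ (Q : ℕ → ℕ → ℕ → F) (X1 X2 : Finset F), 14 * X1.card ≤ Fintype.card F ∧
    14 * X2.card ≤ Fintype.card F ∧
    (∀ a, a ∉ X1 → ∀ i < e2, ∀ l < e3, p1 a i l = ev e1 (fun s => Q s i l) (ι a)) ∧
    (∀ b, b ∉ X2 → ∀ s < e1, ∀ l < e3, p2 b s l = ev e2 (fun i => Q s i l) b)

open Classical in
/-- CMP: composition with a nonconstant polynomial -/
def S_CMP : Prop := ∀ (F : Type) [Field F] [Fintype F] (K e : ℕ) (P : F[X]),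
  P.degree < K → (∃ x y, P.eval x ≠ P.eval y) → ∀ c : ℕ → F, (∃ s < e, c s ≠ 0) →
    (univ.filter fun a => ev e c (P.eval a) = 0).card ≤ e * K

/-! ### the polynomial identities; `F = ZMod q` -/

open Classical in
/-- IDA: from the first identity: the coordinates lie in `{0, ..., h - 1}` (one coordinate) -/
def S_IDA : Prop := ∀ (q k h r : ℕ) [Fact q.Prime] (I : (ZMod q)[X]) (QA QR : ℕ → ZMod q),
  k * k ≤ q → I.degree < (k * k : ℕ) → (∀ s < k, I.eval (s : ZMod q) = s) →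
  h * k ^ 3 < (univ.filter fun x : ZMod q =>
    ∏ η ∈ range h, (ev k QA (I.eval x) - (η : ZMod q)) = Zk k x * ev r QR x).card →
  k + r < (univ.filter fun x : ZMod q =>
    ∏ η ∈ range h, (ev k QA (I.eval x) - (η : ZMod q)) = Zk k x * ev r QR x).card →
  ∀ s < k, ∃ η < h, ev k QA (s : ZMod q) = (η : ZMod q)

/-- POL: the extension along the curve is a polynomial of small degree -/
def S_POL : Prop := ∀ (q k h m N : ℕ) [Fact q.Prime] (adj : ℕ → ℕ → Bool) (I J : (ZMod q)[X])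
  (QA : ℕ → ℕ → ZMod q), 1 ≤ k → I.degree < (k * k : ℕ) → J.degree < (k * k : ℕ) →
  ∃ P : (ZMod q)[X], P.natDegree ≤ 2 * (m * h * k ^ 3) ∧ ∀ x : ZMod q,
    P.eval x = Phi h m N adj (fun c => ev k (fun s => QA s c) (I.eval x))
      (fun c => ev k (fun s => QA s c) (J.eval x))

/-- FLD: folding of a polynomial in one variable -/
def S_FLD : Prop := ∀ (F : Type) [Field F] (e : ℕ), 1 ≤ e →
  (∀ QW : ℕ → ℕ → ℕ → F, ∃ P : F[X], P.natDegree < e ^ 3 ∧ ∀ x, P.eval x =
    ev e (fun i => ev e (fun l => ev e (fun s => QW s i l) x) (x ^ (e * e))) (x ^ e)) ∧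
  (∀ P : F[X], P.natDegree < e ^ 3 → ∃ QW : ℕ → ℕ → ℕ → F, ∀ x, P.eval x =
    ev e (fun i => ev e (fun l => ev e (fun s => QW s i l) x) (x ^ (e * e))) (x ^ e))

open Classical in
/-- IDB: from the second identity: the extension vanishes at the pairs (uses POL, FLD) -/
def S_IDB : Prop := ∀ (q k h m e N : ℕ) [Fact q.Prime] (adj : ℕ → ℕ → Bool) (I J : (ZMod q)[X])
  (QA : ℕ → ℕ → ZMod q) (QW : ℕ → ℕ → ℕ → ZMod q), 1 ≤ k → 1 ≤ e → k * k ≤ q →
  I.degree < (k * k : ℕ) → J.degree < (k * k : ℕ) →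
  2 * (m * h * k ^ 3) < (univ.filter fun x : ZMod q =>
    Phi h m N adj (fun c => ev k (fun s => QA s c) (I.eval x))
      (fun c => ev k (fun s => QA s c) (J.eval x)) =
    Zp k x * ev e (fun i => ev e (fun l => ev e (fun s => QW s i l) x) (x ^ (e * e)))
      (x ^ e)).card →
  k ^ 2 + e ^ 3 < (univ.filter fun x : ZMod q =>
    Phi h m N adj (fun c => ev k (fun s => QA s c) (I.eval x))
      (fun c => ev k (fun s => QA s c) (J.eval x)) =
    Zp k x * ev e (fun i => ev e (fun l => ev e (fun s => QW s i l) x) (x ^ (e * e)))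
      (x ^ e)).card →
  ∀ s < k * k, s % k ≠ s / k →
    Phi h m N adj (fun c => ev k (fun s => QA s c) (I.eval (s : ZMod q)))
      (fun c => ev k (fun s => QA s c) (J.eval (s : ZMod q))) = 0

/-- IDC: the extension at the points of the grid (uses DIG) -/
def S_IDC : Prop := ∀ (q h m N : ℕ) [Fact q.Prime] (adj : ℕ → ℕ → Bool) (x y : ℕ → ZMod q)
  (u v : ℕ), 1 ≤ h → h ≤ q → N = h ^ m → u < N → v < N →
  (∀ c < m, x c = ((dig h c u : ℕ) : ZMod q)) → (∀ c < m, y c = ((dig h c v : ℕ) : ZMod q)) →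
    (Phi h m N adj x y = 0 ↔ adj u v = true)

/-- admissible parameters -/
structure Adm (q k h d e N M n : ℕ) : Prop where
  prime : q.Prime
  hk : 2 ≤ k
  hh : 1 ≤ h
  hd : 1 ≤ d
  he : 1 ≤ e
  h1 : 8 * (h * k ^ 3) ≤ q
  h2 : 8 * d ≤ q
  h3 : 8 * e ≤ q
  h4 : 4 * (d ^ 2 * h * k ^ 3) < q
  h5 : 2 * (k ^ 2 + e ^ 3) < q
  h6 : 2 * (d ^ 2 * h * k ^ 3) < e ^ 3
  h7 : q ^ (3 * d ^ 2 + e ^ 2) ≤ M
  h8 : q ^ (d * (k + h * k ^ 3) + e ^ 2) ≤ M
  h9 : N = h ^ (d * d)
  h10 : n ≤ N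

/-- the inconsistent pairs of planes of directions `0` and `1` -/
def Bad12 {F : Type} [Field F] (k h d e N : ℕ) (adj : ℕ → ℕ → Bool) (I J : F → F)
    (α β ρ : F → ℕ → F) (ω : F → ℕ → ℕ → F) (A2 R2 W2 : F → ℕ → ℕ → F) (a b : F) : Prop :=
  ¬ T2 k h d e N adj a (α a) (β a) (ρ a) (ω a) ∨
  In12 k d d I (fun a i l => α a (d * i + l)) A2 a b ∨
  In12 k d d J (fun a i l => β a (d * i + l)) A2 a b ∨
  In12 (h * k ^ 3) d d id (fun a i l => ρ a (d * i + l)) R2 a b ∨
  In12 e e e id ω W2 a b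

/-- the inconsistent pairs of planes of directions `0` and `2` -/
def Bad13 {F : Type} [Field F] (k h d e N : ℕ) (adj : ℕ → ℕ → Bool) (I J : F → F)
    (α β ρ : F → ℕ → F) (ω : F → ℕ → ℕ → F) (A3 R3 W3 : F → ℕ → ℕ → F) (a c : F) : Prop :=
  ¬ T2 k h d e N adj a (α a) (β a) (ρ a) (ω a) ∨
  In13 k d d I (fun a i l => α a (d * i + l)) A3 a c ∨
  In13 k d d J (fun a i l => β a (d * i + l)) A3 a c ∨
  In13 (h * k ^ 3) d d id (fun a i l => ρ a (d * i + l)) R3 a c ∨
  In13 e e e id ω W3 a c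

/-- the inconsistent pairs of planes of directions `1` and `2` -/
def Bad23 {F : Type} [Field F] (k h d e : ℕ) (A2 R2 W2 A3 R3 W3 : F → ℕ → ℕ → F)
    (b c : F) : Prop :=
  In23 k d d A2 A3 b c ∨ In23 (h * k ^ 3) d d R2 R3 b c ∨ In23 e e e W2 W3 b c

open Classical in
/-- SNA: soundness, abstract form (uses TRI, CMP, IDA, IDB, IDC, DIG, UNI) -/
def S_SNA : Prop := ∀ (q k h d e N M n : ℕ) [Fact q.Prime] (adj : ℕ → ℕ → Bool)
  (I J : (ZMod q)[X]) (α β ρ : ZMod q → ℕ → ZMod q)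
  (ω A2 R2 W2 A3 R3 W3 : ZMod q → ℕ → ℕ → ZMod q), Adm q k h d e N M n →
  I.degree < (k * k : ℕ) → J.degree < (k * k : ℕ) →
  (∀ s < k * k, I.eval (s : ZMod q) = ((s % k : ℕ) : ZMod q)) →
  (∀ s < k * k, J.eval (s : ZMod q) = ((s / k : ℕ) : ZMod q)) →
  64 * ((univ.filter fun p : ZMod q × ZMod q =>
      Bad12 k h d e N adj (fun x => I.eval x) (fun x => J.eval x) α β ρ ω A2 R2 W2 p.1 p.2).card +
    (univ.filter fun p : ZMod q × ZMod q =>
      Bad13 k h d e N adj (fun x => I.eval x) (fun x => J.eval x) α β ρ ω A3 R3 W3 p.1 p.2).card +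
    (univ.filter fun p : ZMod q × ZMod q =>
      Bad23 k h d e A2 R2 W2 A3 R3 W3 p.1 p.2).card) ≤ q ^ 2 →
  ∃ v : ℕ → ℕ, (∀ i < k, v i < N) ∧ ∀ i < k, ∀ j < k, i ≠ j → adj (v i) (v j) = true

/-! ### completeness -/

/-- CPA: the polynomials `A`, `R` of one coordinate -/
def S_CPA : Prop := ∀ (q k h : ℕ) [Fact q.Prime] (I : (ZMod q)[X]) (y : ℕ → ℕ), 1 ≤ k →
  k * k ≤ q → 1 ≤ h → I.degree < (k * k : ℕ) → (∀ s < k, I.eval (s : ZMod q) = s) →
  (∀ i < k, y i < h) → ∃ QA QR : ℕ → ZMod q,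
    (∀ i < k, ev k QA (i : ZMod q) = ((y i : ℕ) : ZMod q)) ∧
    ∀ x : ZMod q, ∏ η ∈ range h, (ev k QA (I.eval x) - (η : ZMod q)) =
      Zk k x * ev (h * k ^ 3) QR x

/-- CPB: the polynomial `W` (uses POL, FLD) -/
def S_CPB : Prop := ∀ (q k h m e N : ℕ) [Fact q.Prime] (adj : ℕ → ℕ → Bool) (I J : (ZMod q)[X])
  (QA : ℕ → ℕ → ZMod q), 1 ≤ k → 1 ≤ e → k * k ≤ q → 2 * (m * h * k ^ 3) < e ^ 3 →
  I.degree < (k * k : ℕ) → J.degree < (k * k : ℕ) →
  (∀ s < k * k, s % k ≠ s / k →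
    Phi h m N adj (fun c => ev k (fun s => QA s c) (I.eval (s : ZMod q)))
      (fun c => ev k (fun s => QA s c) (J.eval (s : ZMod q))) = 0) →
  ∃ QW : ℕ → ℕ → ℕ → ZMod q, ∀ x : ZMod q,
    Phi h m N adj (fun c => ev k (fun s => QA s c) (I.eval x))
      (fun c => ev k (fun s => QA s c) (J.eval x)) =
    Zp k x * ev e (fun i => ev e (fun l => ev e (fun s => QW s i l) x) (x ^ (e * e))) (x ^ e)

/-- CNA: completeness, abstract form (uses CPA, CPB, IDC, DIG) -/
def S_CNA : Prop := ∀ (q k h d e N M n : ℕ) [Fact q.Prime] (adj : ℕ → ℕ → Bool)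
  (I J : (ZMod q)[X]) (v : ℕ → ℕ), Adm q k h d e N M n →
  I.degree < (k * k : ℕ) → J.degree < (k * k : ℕ) →
  (∀ s < k * k, I.eval (s : ZMod q) = ((s % k : ℕ) : ZMod q)) →
  (∀ s < k * k, J.eval (s : ZMod q) = ((s / k : ℕ) : ZMod q)) →
  (∀ i < k, v i < N) → (∀ i < k, ∀ j < k, i ≠ j → adj (v i) (v j) = true) →
  ∃ (QA QR : ℕ → ℕ → ZMod q) (QW : ℕ → ℕ → ℕ → ZMod q), ∀ x : ZMod q,
    T2 k h d e N adj x (fun c => ev k (fun s => QA s c) (I.eval x))
      (fun c => ev k (fun s => QA s c) (J.eval x)) (fun c => ev (h * k ^ 3) (fun s => QR s c) x)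
      (fun i l => ev e (fun s => QW s i l) x)

/-! ### the reduction, computed with natural numbers -/

/-- adjacency in `graph G`, as a function of natural numbers -/
def adE (G : Code) (u v : ℕ) : Bool :=
  decide (u < G.length) && (decide (v < G.length) && adjB G u v)

/-- remainder (`0` for `q = 0`) -/
def md (q x : ℕ) : ℕ := if q = 0 then 0 else x % q

/-- `f 0 + ... + f (n - 1)` -/
def sm (n : ℕ) (f : ℕ → ℕ) : ℕ := ((List.range n).map f).sum

/-- `f 0 * ... * f (n - 1)` modulo `q` -/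
def pm (q n : ℕ) (f : ℕ → ℕ) : ℕ := (List.range n).foldl (fun y i => md q (y * f i)) 1

/-- difference modulo `q` (not reduced) -/
def dm (q x y : ℕ) : ℕ := x + (q - md q y)

/-- power modulo `q` -/
def wm (q b i : ℕ) : ℕ := pm q i (fun _ => b)

/-- value of a polynomial modulo `q` -/
def evn (q e : ℕ) (c : ℕ → ℕ) (x : ℕ) : ℕ := md q (sm e fun i => c i * wm q x i)

/-- interpolation: the value at `x` of the polynomial with the values `f s` at `s < K` -/
def itp (q K : ℕ) (f : ℕ → ℕ) (x : ℕ) : ℕ :=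
  md q (sm K fun s => f s * pm q K (fun s' =>
    if s' = s then 1 else dm q x s' * wm q (dm q s s') (q - 2)))

def deln (q h η z : ℕ) : ℕ := pm q h fun η' => if η' = η then 1 else dm q z η'

def indn (q h m u : ℕ) (α : ℕ → ℕ) : ℕ := pm q m fun c => deln q h (dig h c u) (α c)

def phin (q h m N : ℕ) (G : Code) (α β : ℕ → ℕ) : ℕ :=
  md q (sm N fun u => sm N fun v => if adE G u v then 0 else indn q h m u α * indn q h m v β)

def zkn (q k x : ℕ) : ℕ := pm q k fun s => dm q x s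

def zpn (q k x : ℕ) : ℕ := pm q (k * k) fun s => if s % k = s / k then 1 else dm q x s

/-- entry `(i, l)` of the matrix with `d` columns which is written in the code `j` from digit
`off` on -/
def blk (q off d j i l : ℕ) : ℕ := dig q (off + (d * i + l)) j

/-- `∀ l < n, ∑_{i<e1} p i l x^i = ∑_{i<e2} P i l y^i` modulo `q` -/
def chk (q e1 e2 n x y : ℕ) (p P : ℕ → ℕ → ℕ) : Bool :=
  (List.range n).all fun l =>
    decide (evn q e1 (fun i => p i l) x = evn q e2 (fun i => P i l) y)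

/-- the test of a plane of direction `0` at the position `x` with code `j` -/
def tst (q k h d e N : ℕ) (G : Code) (x j : ℕ) : Bool :=
  ((List.range (d * d)).all fun c =>
    decide (pm q h (fun η => dm q (dig q c j) η) = md q (zkn q k x * dig q (2 * (d * d) + c) j))) &&
  decide (phin q h (d * d) N G (fun c => dig q c j) (fun c => dig q (d * d + c) j) =
    md q (zpn q k x * evn q e (fun i => evn q e (fun l => blk q (3 * (d * d)) e j i l)
      (wm q x (e * e))) (wm q x e)))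

/-- the curve: position of the first, second vertex -/
def cI (q k x : ℕ) : ℕ := itp q (k * k) (fun s => s % k) x

def cJ (q k x : ℕ) : ℕ := itp q (k * k) (fun s => s / k) x

/-- consistency of the code `j` at position `x` of direction `0` and the code `j'` at position `b`
of direction `1` -/
def e01 (q k h d e N : ℕ) (G : Code) (x j b j' : ℕ) : Bool :=
  tst q k h d e N G x j && chk q d k d b (cI q k x) (blk q 0 d j) (blk q 0 d j') &&
  chk q d k d b (cJ q k x) (blk q (d * d) d j) (blk q 0 d j') &&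
  chk q d (h * k ^ 3) d b x (blk q (2 * (d * d)) d j) (blk q (d * k) d j') &&
  chk q e e e b x (blk q (3 * (d * d)) e j) (blk q (d * (k + h * k ^ 3)) e j')

/-- the same for direction `2` -/
def e02 (q k h d e N : ℕ) (G : Code) (x j c j' : ℕ) : Bool :=
  tst q k h d e N G x j &&
  chk q d k d c (cI q k x) (fun l i => blk q 0 d j i l) (blk q 0 d j') &&
  chk q d k d c (cJ q k x) (fun l i => blk q (d * d) d j i l) (blk q 0 d j') &&
  chk q d (h * k ^ 3) d c x (fun l i => blk q (2 * (d * d)) d j i l) (blk q (d * k) d j') &&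
  chk q e e e c x (fun l i => blk q (3 * (d * d)) e j i l) (blk q (d * (k + h * k ^ 3)) e j')

/-- consistency of the code `j` at position `b` of direction `1` and the code `j'` at position `c`
of direction `2` -/
def e12 (q k h d e : ℕ) (b j c j' : ℕ) : Bool :=
  chk q d d k c b (fun l s => blk q 0 d j s l) (fun i s => blk q 0 d j' s i) &&
  chk q d d (h * k ^ 3) c b (fun l s => blk q (d * k) d j s l)
    (fun i s => blk q (d * k) d j' s i) &&
  chk q e e e c b (fun l s => blk q (d * (k + h * k ^ 3)) e j s l)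
    (fun i s => blk q (d * (k + h * k ^ 3)) e j' s i)

/-- adjacency in the new graph: the part `u / M` is the plane of direction `u / M / q` at the
position `u / M % q` -/
def hE (q k h d e N M : ℕ) (G : Code) (u v : ℕ) : Bool :=
  if u / M / q = v / M / q then decide (u / M ≠ v / M)
  else if u / M / q = 0 ∧ v / M / q = 1 then
    e01 q k h d e N G (u / M % q) (u % M) (v / M % q) (v % M)
  else if u / M / q = 0 ∧ v / M / q = 2 then
    e02 q k h d e N G (u / M % q) (u % M) (v / M % q) (v % M)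
  else if u / M / q = 1 ∧ v / M / q = 2 then
    e12 q k h d e (u / M % q) (u % M) (v / M % q) (v % M)
  else false

/-- the reduction -/
def redE (q k h d e N M : ℕ) (G : Code) : Inst :=
  ((List.range (3 * q * M)).map fun u => (List.range (3 * q * M)).map fun v =>
      hE q k h d e N M G u v,
    3 * q, (List.range (3 * q * M)).map fun u => u / M)

/-- CST: the operations modulo a prime -/
def S_CST : Prop := ∀ (q : ℕ) [Fact q.Prime],
  (∀ x, md q x < q ∧ ((md q x : ℕ) : ZMod q) = x) ∧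
  (∀ n f, pm q n f < q ∧ ((pm q n f : ℕ) : ZMod q) = ∏ i ∈ range n, ((f i : ℕ) : ZMod q)) ∧
  (∀ n f, sm n f = ∑ i ∈ range n, f i) ∧
  (∀ x y, ((dm q x y : ℕ) : ZMod q) = (x : ZMod q) - y) ∧
  (∀ b i, wm q b i < q ∧ ((wm q b i : ℕ) : ZMod q) = (b : ZMod q) ^ i) ∧
  (∀ e c x, evn q e c x < q ∧
    ((evn q e c x : ℕ) : ZMod q) = ev e (fun i => ((c i : ℕ) : ZMod q)) (x : ZMod q))

/-- ITP: interpolation (uses CST) -/
def S_ITP : Prop := ∀ (q K : ℕ) [Fact q.Prime] (f : ℕ → ℕ), 1 ≤ K → K ≤ q →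
  ∃ P : (ZMod q)[X], P.degree < (K : ℕ) ∧
    (∀ x : ℕ, itp q K f x < q ∧ ((itp q K f x : ℕ) : ZMod q) = P.eval (x : ZMod q)) ∧
    ∀ s < K, P.eval (s : ZMod q) = ((f s : ℕ) : ZMod q)

/-- CHK: meaning of `chk` (uses CST) -/
def S_CHK : Prop := ∀ (q e1 e2 n x y : ℕ) [Fact q.Prime] (p P : ℕ → ℕ → ℕ),
  chk q e1 e2 n x y p P = true ↔ ∀ l < n,
    ev e1 (fun i => ((p i l : ℕ) : ZMod q)) (x : ZMod q) =
      ev e2 (fun i => ((P i l : ℕ) : ZMod q)) (y : ZMod q)

/-- TST: meaning of `tst` (uses CST) -/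
def S_TST : Prop := ∀ (q k h d e N : ℕ) [Fact q.Prime] (G : Code) (x j : ℕ),
  tst q k h d e N G x j = true ↔ T2 k h d e N (adE G) (x : ZMod q)
    (fun c => ((dig q c j : ℕ) : ZMod q)) (fun c => ((dig q (d * d + c) j : ℕ) : ZMod q))
    (fun c => ((dig q (2 * (d * d) + c) j : ℕ) : ZMod q))
    (fun i l => ((blk q (3 * (d * d)) e j i l : ℕ) : ZMod q))

open Classical in
/-- VAL: the value of a solution; `j π` is the code chosen in part `π` -/
def S_VAL : Prop := ∀ (q k h d e N M : ℕ) (G : Code)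
  (t : Fin (redE q k h d e N M G).2.1 → Fin (redE q k h d e N M G).1.length),
  1 ≤ q → 1 ≤ M → IsSol (redE q k h d e N M G) t →
  ∃ j : ℕ → ℕ, (∀ π < 3 * q, j π < M) ∧ (∀ π, (t π : ℕ) = (π : ℕ) * M + j π) ∧
    value (redE q k h d e N M G) t +
      (((range q) ×ˢ (range q)).filter fun p : ℕ × ℕ =>
        e01 q k h d e N G p.1 (j p.1) p.2 (j (q + p.2)) = false).card +
      (((range q) ×ˢ (range q)).filter fun p : ℕ × ℕ =>
        e02 q k h d e N G p.1 (j p.1) p.2 (j (2 * q + p.2)) = false).card +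
      (((range q) ×ˢ (range q)).filter fun p : ℕ × ℕ =>
        e12 q k h d e p.1 (j (q + p.1)) p.2 (j (2 * q + p.2)) = false).card =
    (3 * q).choose 2

/-- SOL: solutions from codes -/
def S_SOL : Prop := ∀ (q k h d e N M : ℕ) (G : Code) (j : ℕ → ℕ), 1 ≤ q → 1 ≤ M →
  (∀ π < 3 * q, j π < M) →
  ∃ t : Fin (redE q k h d e N M G).2.1 → Fin (redE q k h d e N M G).1.length,
    IsSol (redE q k h d e N M G) t ∧ ∀ π, (t π : ℕ) = (π : ℕ) * M + j π

/-- VLE: the new instance is valid -/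
def S_VLE : Prop := ∀ (q k h d e N M : ℕ) (G : Code), 1 ≤ M → Valid (redE q k h d e N M G)

/-- the digits from `off` on of the code of the plane at position `x` -/
def arA (q off : ℕ) (j : ℕ → ℕ) (x : ZMod q) (c : ℕ) : ZMod q :=
  ((dig q (off + c) (j x.val) : ℕ) : ZMod q)

/-- the block with `d` columns from `off` on of the code of the plane at position `x` -/
def arB (q off d : ℕ) (j : ℕ → ℕ) (x : ZMod q) (i l : ℕ) : ZMod q :=
  ((blk q off d (j x.val) i l : ℕ) : ZMod q)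

/-- EDG: meaning of the edges of the new graph (uses CHK, TST, ITP); `j1, j2, j3` are the codes
chosen for the planes of direction `0, 1, 2` -/
def S_EDG : Prop := ∀ (q k h d e N : ℕ) [Fact q.Prime] (G : Code), 1 ≤ k → k * k ≤ q →
  ∃ I J : (ZMod q)[X], I.degree < (k * k : ℕ) ∧ J.degree < (k * k : ℕ) ∧
    (∀ s < k * k, I.eval (s : ZMod q) = ((s % k : ℕ) : ZMod q)) ∧
    (∀ s < k * k, J.eval (s : ZMod q) = ((s / k : ℕ) : ZMod q)) ∧
    ∀ j1 j2 j3 : ℕ → ℕ, ∀ a < q, ∀ b < q,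
    (e01 q k h d e N G a (j1 a) b (j2 b) = false ↔
      Bad12 k h d e N (adE G) (fun x => I.eval x) (fun x => J.eval x) (arA q 0 j1)
        (arA q (d * d) j1) (arA q (2 * (d * d)) j1) (arB q (3 * (d * d)) e j1)
        (arB q 0 d j2) (arB q (d * k) d j2) (arB q (d * (k + h * k ^ 3)) e j2)
        (a : ZMod q) (b : ZMod q)) ∧
    (e02 q k h d e N G a (j1 a) b (j3 b) = false ↔
      Bad13 k h d e N (adE G) (fun x => I.eval x) (fun x => J.eval x) (arA q 0 j1)
        (arA q (d * d) j1) (arA q (2 * (d * d)) j1) (arB q (3 * (d * d)) e j1)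
        (arB q 0 d j3) (arB q (d * k) d j3) (arB q (d * (k + h * k ^ 3)) e j3)
        (a : ZMod q) (b : ZMod q)) ∧
    (e12 q k h d e a (j2 a) b (j3 b) = false ↔
      Bad23 k h d e (arB q 0 d j2) (arB q (d * k) d j2) (arB q (d * (k + h * k ^ 3)) e j2)
        (arB q 0 d j3) (arB q (d * k) d j3) (arB q (d * (k + h * k ^ 3)) e j3)
        (a : ZMod q) (b : ZMod q))

open Classical in
/-- CTQ: counting pairs of numbers below `q` and pairs of elements of `ZMod q` -/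
def S_CTQ : Prop := ∀ (q : ℕ) [Fact q.Prime] (P : ZMod q → ZMod q → Prop),
  (((range q) ×ˢ (range q)).filter fun p : ℕ × ℕ => P (p.1 : ZMod q) (p.2 : ZMod q)).card =
    (univ.filter fun p : ZMod q × ZMod q => P p.1 p.2).card

/-- COD: codes with given digits (uses DIG) -/
def S_COD : Prop := ∀ (q n M : ℕ) [Fact q.Prime] (f : ℕ → ZMod q), q ^ n ≤ M →
  ∃ j < M, ∀ c < n, ((dig q c j : ℕ) : ZMod q) = f c

/-- CPC: planes of common polynomials are consistent -/
def S_CPC : Prop := ∀ (F : Type) [Field F] (k h d e N : ℕ) (adj : ℕ → ℕ → Bool)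
  (I J : F → F) (QA QR : ℕ → ℕ → F) (QW : ℕ → ℕ → ℕ → F) (α β ρ : F → ℕ → F)
  (ω A2 R2 W2 A3 R3 W3 : F → ℕ → ℕ → F),
  (∀ x, T2 k h d e N adj x (fun c => ev k (fun s => QA s c) (I x))
    (fun c => ev k (fun s => QA s c) (J x)) (fun c => ev (h * k ^ 3) (fun s => QR s c) x)
    (fun i l => ev e (fun s => QW s i l) x)) →
  (∀ x, ∀ c < d * d, α x c = ev k (fun s => QA s c) (I x) ∧
    β x c = ev k (fun s => QA s c) (J x) ∧ ρ x c = ev (h * k ^ 3) (fun s => QR s c) x) →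
  (∀ x, ∀ i < e, ∀ l < e, ω x i l = ev e (fun s => QW s i l) x) →
  (∀ b, ∀ s < k, ∀ l < d, A2 b s l = ev d (fun i => QA s (d * i + l)) b ∧
    A3 b s l = ev d (fun i => QA s (d * l + i)) b) →
  (∀ b, ∀ s < h * k ^ 3, ∀ l < d, R2 b s l = ev d (fun i => QR s (d * i + l)) b ∧
    R3 b s l = ev d (fun i => QR s (d * l + i)) b) →
  (∀ b, ∀ s < e, ∀ l < e, W2 b s l = ev e (fun i => QW s i l) b ∧
    W3 b s l = ev e (fun i => QW s l i) b) →
  ∀ x y, ¬ Bad12 k h d e N adj I J α β ρ ω A2 R2 W2 x y ∧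
    ¬ Bad13 k h d e N adj I J α β ρ ω A3 R3 W3 x y ∧ ¬ Bad23 k h d e A2 R2 W2 A3 R3 W3 x y

/-- CLQ: cliques and the adjacency function -/
def S_CLQ : Prop := ∀ (G : Code) (k : ℕ), HasClique G k ↔ ∃ v : ℕ → ℕ,
  (∀ i < k, v i < G.length) ∧ ∀ i < k, ∀ j < k, i ≠ j → adE G (v i) (v j) = true

/-- SNE: soundness of the reduction (uses SNA, EDG, CTQ, VAL, CLQ) -/
def S_SNE : Prop := ∀ (q k h d e N M : ℕ) (G : Code), Adm q k h d e N M G.length →
  ¬ HasClique G k → ∀ t, IsSol (redE q k h d e N M G) t →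
    288 * value (redE q k h d e N M G) t ≤ 287 * (3 * q).choose 2

/-- CPE: completeness of the reduction (uses CNA, EDG, COD, CPC, VAL, SOL, VLE, CLQ) -/
def S_CPE : Prop := ∀ (q k h d e N M : ℕ) (G : Code), Adm q k h d e N M G.length →
  HasClique G k → Full (redE q k h d e N M G)

/-- POP: the modular operations are computed in polynomial time (numbers in unary) -/
def S_POP : Prop := ∀ (α : Type) [Enc α],
  (∀ q x : α → ℕ, PTF q → PTF x → PTF fun a => md (q a) (x a)) ∧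
  (∀ (n : α → ℕ) (f : α → ℕ → ℕ), PTF n → PTF (fun p : α × ℕ => f p.1 p.2) →
    PTF fun a => sm (n a) (f a)) ∧
  (∀ (q n : α → ℕ) (f : α → ℕ → ℕ), PTF q → PTF n → PTF (fun p : α × ℕ => f p.1 p.2) →
    PTF fun a => pm (q a) (n a) (f a)) ∧
  (∀ q x y : α → ℕ, PTF q → PTF x → PTF y → PTF fun a => dm (q a) (x a) (y a)) ∧
  (∀ q x n : α → ℕ, PTF q → PTF x → PTF n → PTF fun a => wm (q a) (x a) (n a)) ∧
  (∀ (q n x : α → ℕ) (f : α → ℕ → ℕ), PTF q → PTF n → PTF x →
    PTF (fun p : α × ℕ => f p.1 p.2) → PTF fun a => evn (q a) (n a) (f a) (x a)) ∧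
  (∀ (q n x : α → ℕ) (f : α → ℕ → ℕ), PTF q → PTF n → PTF x →
    PTF (fun p : α × ℕ => f p.1 p.2) → PTF fun a => itp (q a) (n a) (f a) (x a)) ∧
  (∀ b i j : α → ℕ, PTF b → PTF i → PTF j → PTF fun a => dig (b a) (i a) (j a))

/-- PTT: the test of a plane of direction `0` is computed in polynomial time (uses POP) -/
def S_PTT : Prop := ∀ (α : Type) [Enc α] (q k h d e N x j : α → ℕ) (G : α → Code),
  PTF q → PTF k → PTF h → PTF d → PTF e → PTF N → PTF x → PTF j → PTF G →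
  PTF (fun a => tst (q a) (k a) (h a) (d a) (e a) (N a) (G a) (x a) (j a))

/-- PCH: `chk` is computed in polynomial time (uses POP) -/
def S_PCH : Prop := ∀ (α : Type) [Enc α] (q e1 e2 n x y : α → ℕ) (p P : α → ℕ → ℕ → ℕ),
  PTF q → PTF e1 → PTF e2 → PTF n → PTF x → PTF y →
  PTF (fun t : (α × ℕ) × ℕ => p t.1.1 t.1.2 t.2) → PTF (fun t : (α × ℕ) × ℕ => P t.1.1 t.1.2 t.2) →
  PTF (fun a => chk (q a) (e1 a) (e2 a) (n a) (x a) (y a) (p a) (P a))

/-- RPE: the reduction is computed in polynomial time (uses POP, PTT, PCH) -/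
def S_RPE : Prop := ∀ (α : Type) [Enc α] (q k h d e N M : α → ℕ) (G : α → Code),
  PTF q → PTF k → PTF h → PTF d → PTF e → PTF N → PTF M → PTF G →
  PTF (fun a => redE (q a) (k a) (h a) (d a) (e a) (N a) (M a) (G a))

end Pool.Agent.Work.MP_3154ac_lc.E
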